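import Pool.Agent.Helper14.LE.Stmts2

/-! A2: the outer part. -/

open MeasureTheory Set Filter Topology InnerProductSpace

noncomputable section

set_option linter.unusedSectionVars false

namespace LEP.A2

/-- clamp -/
def cl (a b t : ℝ) : ℝ := max (-a) (min t b)

/-- antiderivative of `(cl a b t) ^ p` -/
def ph (a b : ℝ) (p : ℕ) (t : ℝ) : ℝ :=
  (cl a b t) ^ (p + 1) / (p + 1) + (t - cl a b t) * (cl a b t) ^ p

section scalar

variable {a b τ : ℝ} (ha : 0 ≤ a) (hb : 0 ≤ b) (haτ : a ≤ τ) (hbτ : b ≤ τ)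

include ha hb haτ hbτ in
lemma abs_cl (t : ℝ) : |cl a b t| ≤ τ := by
  unfold cl
  rw [abs_le]
  constructor
  · exact (neg_le_neg haτ).trans (le_max_left _ _)
  · apply max_le
    · linarith
    · exact (min_le_right _ _).trans hbτ

lemma cl_lip (t s : ℝ) : |cl a b t - cl a b s| ≤ |t - s| := by
  unfold cl
  refine (abs_max_sub_max_le_max (-a) (min t b) (-a) (min s b)).trans ?_
  rw [sub_self, abs_zero]
  apply max_le (abs_nonneg _)
  refine (abs_min_sub_min_le_max t b s b).trans ?_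
  rw [sub_self, abs_zero]
  exact max_le le_rfl (abs_nonneg _)

include ha hb haτ hbτ in
lemma pow_lip (p : ℕ) (t s : ℝ) :
    |cl a b t ^ p - cl a b s ^ p| ≤ p * τ ^ (p - 1) * |t - s| := by
  have h1 := abs_pow_sub_pow_le (cl a b t) (cl a b s) p
  refine h1.trans ?_
  have hτ : 0 ≤ τ := ha.trans haτ
  have h2 : max |cl a b t| |cl a b s| ^ (p - 1) ≤ τ ^ (p - 1) := by
    apply pow_le_pow_left₀
    · exact le_max_of_le_left (abs_nonneg _)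
    · exact max_le (abs_cl ha hb haτ hbτ t) (abs_cl ha hb haτ hbτ s)
  calc |cl a b t - cl a b s| * p * max |cl a b t| |cl a b s| ^ (p - 1)
      ≤ |t - s| * p * τ ^ (p - 1) := by
        apply mul_le_mul _ h2 (by positivity) (by positivity)
        exact mul_le_mul_of_nonneg_right (cl_lip t s) (by positivity)
    _ = _ := by ring

include ha hb haτ hbτ in
lemma abs_pow_le (p : ℕ) (t : ℝ) : |cl a b t ^ p| ≤ τ ^ p := by
  rw [abs_pow]
  exact pow_le_pow_left₀ (abs_nonneg _) (abs_cl ha hb haτ hbτ t) p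

lemma convex_ineq {p : ℕ} (hp : Odd p) (c d : ℝ) :
    c ^ (p + 1) - d ^ (p + 1) ≤ (p + 1) * c ^ p * (c - d) := by
  have hconv : ConvexOn ℝ Set.univ (fun x : ℝ => x ^ (p + 1)) := Even.convexOn_pow hp.add_one
  have hder : ∀ x : ℝ, HasDerivAt (fun x : ℝ => x ^ (p + 1)) ((p + 1) * x ^ p) x := by
    intro x
    have := hasDerivAt_pow (p + 1) x
    simpa using this
  rcases lt_trichotomy c d with h | h | h
  · have h1 := hconv.le_slope_of_hasDerivAt (Set.mem_univ c) (Set.mem_univ d) h (hder c)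
    rw [slope_def_field, le_div_iff₀ (by linarith)] at h1
    linarith
  · rw [h]; simp
  · have h1 := hconv.slope_le_of_hasDerivAt (Set.mem_univ d) (Set.mem_univ c) h (hder c)
    rw [slope_def_field, div_le_iff₀ (by linarith)] at h1
    linarith

include ha hb in
/-- sign and location of the clamp -/
lemma cl_cases (t : ℝ) : (cl a b t = t ∧ -a ≤ t ∧ t ≤ b) ∨ (cl a b t = b ∧ b < t) ∨
    (cl a b t = -a ∧ t < -a) := by
  unfold cl
  rcases lt_or_ge b t with h | h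
  · right; left
    rw [min_eq_right h.le, max_eq_right (by linarith)]
    exact ⟨rfl, h⟩
  · rcases lt_or_ge t (-a) with h' | h'
    · right; right
      rw [min_eq_left h, max_eq_left h'.le]
      exact ⟨rfl, h'⟩
    · left
      rw [min_eq_left h, max_eq_right h']
      exact ⟨rfl, h', h⟩

include ha hb haτ hbτ in
lemma ph_ineq {p : ℕ} (hp : Odd p) (t s : ℝ) :
    ph a b p t ≤ ph a b p s + cl a b s ^ p * (t - s) + p * τ ^ (p - 1) * (t - s) ^ 2 := by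
  have hτ : 0 ≤ τ := ha.trans haτ
  set c := cl a b t with hc
  set d := cl a b s with hd
  have hconv := convex_ineq hp c d
  have hp1 : (0 : ℝ) < p + 1 := by positivity
  -- the main estimate
  have hkey : ph a b p t - ph a b p s - d ^ p * (t - s) ≤ (c ^ p - d ^ p) * (t - d) := by
    unfold ph
    rw [← hc, ← hd]
    have h1 : (c ^ (p + 1) - d ^ (p + 1)) / (p + 1) ≤ c ^ p * (c - d) := by
      rw [div_le_iff₀ hp1]
      linarith
    have h2 : c ^ (p + 1) / ((p : ℝ) + 1) + (t - c) * c ^ p -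
        (d ^ (p + 1) / ((p : ℝ) + 1) + (s - d) * d ^ p) - d ^ p * (t - s) =
        (c ^ (p + 1) - d ^ (p + 1)) / (p + 1) + (t - c) * c ^ p - (t - d) * d ^ p := by ring
    rw [h2]
    have h3 : (c ^ p - d ^ p) * (t - d) = c ^ p * (c - d) + (t - c) * c ^ p - (t - d) * d ^ p := by
      ring
    rw [h3]
    linarith
  have hlip : |c ^ p - d ^ p| ≤ p * τ ^ (p - 1) * |t - s| := pow_lip ha hb haτ hbτ p t s
  have hmono : ∀ x y : ℝ, x ≤ y → x ^ p ≤ y ^ p := fun x y h => hp.strictMono_pow.monotone h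
  have hfin : (c ^ p - d ^ p) * (t - d) ≤ |c ^ p - d ^ p| * |t - s| := by
    rcases cl_cases ha hb s with ⟨h1, _, _⟩ | ⟨h1, h2⟩ | ⟨h1, h2⟩
    · rw [hd, h1]
      calc _ ≤ |(c ^ p - s ^ p) * (t - s)| := le_abs_self _
        _ = _ := abs_mul _ _
    · -- `d = b < s`
      rw [← hd] at h1
      rcases cl_cases ha hb t with ⟨h3, h4, h5⟩ | ⟨h3, h4⟩ | ⟨h3, h4⟩
      · rw [← hc] at h3
        have h6 : c ≤ d := by rw [h3, h1]; exact h5
        have h7 : c ^ p - d ^ p ≤ 0 := by linarith [hmono _ _ h6]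
        have h8 : t - d ≤ 0 := by rw [h1]; linarith
        rw [abs_of_nonpos h7, abs_of_nonpos (by linarith : t - s ≤ 0)]
        nlinarith
      · rw [← hc] at h3
        rw [h3, h1]; simp
      · rw [← hc] at h3
        have h6 : c ≤ d := by rw [h3, h1]; linarith
        have h7 : c ^ p - d ^ p ≤ 0 := by linarith [hmono _ _ h6]
        have h8 : t - d ≤ 0 := by rw [h1]; linarith
        rw [abs_of_nonpos h7, abs_of_nonpos (by linarith : t - s ≤ 0)]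
        nlinarith
    · rw [← hd] at h1
      rcases cl_cases ha hb t with ⟨h3, h4, h5⟩ | ⟨h3, h4⟩ | ⟨h3, h4⟩
      · rw [← hc] at h3
        have h6 : d ≤ c := by rw [h3, h1]; exact h4
        have h7 : 0 ≤ c ^ p - d ^ p := by linarith [hmono _ _ h6]
        have h8 : 0 ≤ t - d := by rw [h1]; linarith
        rw [abs_of_nonneg h7, abs_of_nonneg (by linarith : 0 ≤ t - s)]
        nlinarith
      · rw [← hc] at h3
        have h6 : d ≤ c := by rw [h3, h1]; linarith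
        have h7 : 0 ≤ c ^ p - d ^ p := by linarith [hmono _ _ h6]
        have h8 : 0 ≤ t - d := by rw [h1]; linarith
        rw [abs_of_nonneg h7, abs_of_nonneg (by linarith : 0 ≤ t - s)]
        nlinarith
      · rw [← hc] at h3
        rw [h3, h1]; simp
  have hsq : p * τ ^ (p - 1) * |t - s| * |t - s| = p * τ ^ (p - 1) * (t - s) ^ 2 := by
    rw [mul_assoc, abs_mul_abs_self]; ring
  have h9 : |c ^ p - d ^ p| * |t - s| ≤ p * τ ^ (p - 1) * |t - s| * |t - s| :=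
    mul_le_mul_of_nonneg_right hlip (abs_nonneg _)
  linarith

include ha hb in
lemma ph_nonneg {p : ℕ} (hp : Odd p) (t : ℝ) : 0 ≤ ph a b p t := by
  unfold ph
  have h1 : 0 ≤ cl a b t ^ (p + 1) := hp.add_one.pow_nonneg _
  have h2 : 0 ≤ (t - cl a b t) * cl a b t ^ p := by
    rcases cl_cases ha hb t with ⟨h1, _, _⟩ | ⟨h1, h2⟩ | ⟨h1, h2⟩
    · rw [h1]; simp
    · rw [h1]
      exact mul_nonneg (by linarith) (pow_nonneg hb _)
    · rw [h1]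
      exact mul_nonneg_of_nonpos_of_nonpos (by linarith) (hp.pow_nonpos (by linarith))
  positivity

include ha hb haτ hbτ in
lemma ph_le {p : ℕ} (hp : Odd p) (t : ℝ) : ph a b p t ≤ τ ^ p * |t| := by
  have hp1 : (1 : ℝ) ≤ p + 1 := by
    have : (0 : ℝ) ≤ p := by positivity
    linarith
  have h1 : ph a b p t ≤ t * cl a b t ^ p := by
    unfold ph
    have h2 : 0 ≤ cl a b t ^ (p + 1) := hp.add_one.pow_nonneg _
    have h3 : cl a b t ^ (p + 1) / (p + 1) ≤ cl a b t ^ (p + 1) := div_le_self h2 hp1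
    have h4 : cl a b t ^ (p + 1) = cl a b t * cl a b t ^ p := by ring
    nlinarith
  refine h1.trans ?_
  calc t * cl a b t ^ p ≤ |t * cl a b t ^ p| := le_abs_self _
    _ = |cl a b t ^ p| * |t| := by rw [abs_mul, mul_comm]
    _ ≤ τ ^ p * |t| := mul_le_mul_of_nonneg_right (abs_pow_le ha hb haτ hbτ p t) (abs_nonneg _)

end scalar

section measure

variable {H : Type} [NormedAddCommGroup H] [InnerProductSpace ℝ H]
variable {X : Type} [MeasurableSpace X]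

open Classical in
/-- lower clamp level -/
def AA (W1 W2 : Set X) (τ : X → ℝ) (y : X) : ℝ :=
  if y ∈ W1 then τ y else if y ∈ W2 then 0 else τ y

open Classical in
/-- upper clamp level -/
def BB (W1 : Set X) (τ : X → ℝ) (y : X) : ℝ := if y ∈ W1 then 0 else τ y

variable {lam : Measure X} {κ : X → H} {W1 W2 : Set X} {τ : X → ℝ}

lemma AA_nonneg (h0 : ∀ x, 0 ≤ τ x) (y : X) : 0 ≤ AA W1 W2 τ y := by
  unfold AA
  by_cases h1 : y ∈ W1
  · rw [if_pos h1]; exact h0 y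
  · rw [if_neg h1]
    by_cases h2 : y ∈ W2
    · rw [if_pos h2]
    · rw [if_neg h2]; exact h0 y

lemma AA_le (h0 : ∀ x, 0 ≤ τ x) (y : X) : AA W1 W2 τ y ≤ τ y := by
  unfold AA
  by_cases h1 : y ∈ W1
  · rw [if_pos h1]
  · rw [if_neg h1]
    by_cases h2 : y ∈ W2
    · rw [if_pos h2]; exact h0 y
    · rw [if_neg h2]

lemma BB_nonneg (h0 : ∀ x, 0 ≤ τ x) (y : X) : 0 ≤ BB W1 τ y := by
  unfold BB
  by_cases h1 : y ∈ W1
  · rw [if_pos h1]
  · rw [if_neg h1]; exact h0 y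

lemma BB_le (h0 : ∀ x, 0 ≤ τ x) (y : X) : BB W1 τ y ≤ τ y := by
  unfold BB
  by_cases h1 : y ∈ W1
  · rw [if_pos h1]; exact h0 y
  · rw [if_neg h1]

lemma gout_eq (h0 : ∀ x, 0 ≤ τ x) (p : ℕ) (y : X) (t : ℝ) :
    gout W1 W2 τ p y t = cl (AA W1 W2 τ y) (BB W1 τ y) t ^ p := by
  unfold gout cl AA BB
  by_cases h1 : y ∈ W1
  · rw [if_pos h1, if_pos h1, if_pos h1, max_comm]
  · rw [if_neg h1, if_neg h1, if_neg h1]
    by_cases h2 : y ∈ W2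
    · rw [if_pos h2, if_pos h2, neg_zero, max_comm 0, min_max_distrib_right,
        min_eq_left (h0 y)]
    · rw [if_neg h2, if_neg h2]

variable (h0 : ∀ x, 0 ≤ τ x)

include h0 in
lemma abs_gout_le (p : ℕ) (y : X) (t : ℝ) : |gout W1 W2 τ p y t| ≤ τ y ^ p := by
  rw [gout_eq h0]
  exact abs_pow_le (AA_nonneg h0 y) (BB_nonneg h0 y) (AA_le h0 y) (BB_le h0 y) p t

include h0 in
lemma gout_lip (p : ℕ) (y : X) (t s : ℝ) :
    |gout W1 W2 τ p y t - gout W1 W2 τ p y s| ≤ p * τ y ^ (p - 1) * |t - s| := by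
  rw [gout_eq h0, gout_eq h0]
  exact pow_lip (AA_nonneg h0 y) (BB_nonneg h0 y) (AA_le h0 y) (BB_le h0 y) p t s

variable (hκ : StronglyMeasurable κ) (hW1 : MeasurableSet W1) (hW2 : MeasurableSet W2)
  (hτ : Measurable τ)

include hW1 hW2 hτ in
lemma meas_AA : Measurable (AA W1 W2 τ) := by
  unfold AA
  exact Measurable.ite hW1 hτ (Measurable.ite hW2 measurable_const hτ)

include hW1 hτ in
lemma meas_BB : Measurable (BB W1 τ) := by
  unfold BB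
  exact Measurable.ite hW1 measurable_const hτ

include hκ in
lemma meas_inner (v : H) : Measurable (fun y => ⟪κ y, v⟫_ℝ) :=
  (hκ.inner stronglyMeasurable_const).measurable

include hκ hW1 hW2 hτ in
lemma meas_cl (v : H) : Measurable (fun y => cl (AA W1 W2 τ y) (BB W1 τ y) ⟪κ y, v⟫_ℝ) := by
  unfold cl
  exact (meas_AA hW1 hW2 hτ).neg.max ((meas_inner hκ v).min (meas_BB hW1 hτ))

include h0 hκ hW1 hW2 hτ in
lemma meas_gout (p : ℕ) (v : H) : Measurable (fun y => gout W1 W2 τ p y ⟪κ y, v⟫_ℝ) := by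
  simp_rw [gout_eq h0]
  exact (meas_cl hκ hW1 hW2 hτ v).pow_const p

include hκ hW1 hW2 hτ in
lemma meas_ph (p : ℕ) (v : H) :
    Measurable (fun y => ph (AA W1 W2 τ y) (BB W1 τ y) p ⟪κ y, v⟫_ℝ) := by
  unfold ph
  have h1 := meas_cl hκ hW1 hW2 hτ v
  exact ((h1.pow_const (p + 1)).div_const _).add
    (((meas_inner hκ v).sub h1).mul (h1.pow_const p))

/-- the potential -/
def FF (lam : Measure X) (κ : X → H) (W1 W2 : Set X) (τ : X → ℝ) (p : ℕ) (v : H) : ℝ :=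
  ∫ y, ph (AA W1 W2 τ y) (BB W1 τ y) p ⟪κ y, v⟫_ℝ ∂lam

variable (h1 : ∀ x, τ x ≤ 1) {p : ℕ} (hp : Odd p)
  (hJ : Integrable (fun y => τ y ^ (p - 1) * (1 + ‖κ y‖ + ‖κ y‖ ^ 2)) lam)

include h0 h1 hp in
lemma pow_le (y : X) : τ y ^ p ≤ τ y ^ (p - 1) := pow_le_pow_of_le_one (h0 y) (h1 y) (by omega)

include h0 h1 hp in
lemma bd1 (v : H) (y : X) : ‖gout W1 W2 τ p y ⟪κ y, v⟫_ℝ‖ ≤
    τ y ^ (p - 1) * (1 + ‖κ y‖ + ‖κ y‖ ^ 2) := by
  have h2 : 0 ≤ τ y ^ (p - 1) := pow_nonneg (h0 y) _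
  calc ‖gout W1 W2 τ p y ⟪κ y, v⟫_ℝ‖ ≤ τ y ^ p := abs_gout_le h0 p y _
    _ ≤ τ y ^ (p - 1) := pow_le h0 h1 hp y
    _ = τ y ^ (p - 1) * 1 := (mul_one _).symm
    _ ≤ _ := by
      apply mul_le_mul_of_nonneg_left _ h2
      have := norm_nonneg (κ y)
      nlinarith

include h0 h1 hp in
lemma bd2 (v : H) (y : X) : ‖gout W1 W2 τ p y ⟪κ y, v⟫_ℝ • κ y‖ ≤
    τ y ^ (p - 1) * (1 + ‖κ y‖ + ‖κ y‖ ^ 2) := by
  have h2 : 0 ≤ τ y ^ (p - 1) := pow_nonneg (h0 y) _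
  rw [norm_smul]
  calc ‖gout W1 W2 τ p y ⟪κ y, v⟫_ℝ‖ * ‖κ y‖ ≤ τ y ^ (p - 1) * ‖κ y‖ := by
        apply mul_le_mul_of_nonneg_right _ (norm_nonneg _)
        exact (abs_gout_le h0 p y _).trans (pow_le h0 h1 hp y)
    _ ≤ _ := by
      apply mul_le_mul_of_nonneg_left _ h2
      have := norm_nonneg (κ y)
      nlinarith

include h0 h1 hp hκ hW1 hW2 hτ hJ in
lemma int_gout (v : H) : Integrable (fun y => gout W1 W2 τ p y ⟪κ y, v⟫_ℝ) lam :=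
  hJ.mono' (meas_gout h0 hκ hW1 hW2 hτ p v).aestronglyMeasurable
    (Eventually.of_forall (fun y => bd1 h0 h1 hp v y))

include h0 h1 hp hκ hW1 hW2 hτ hJ in
lemma int_gsmul (v : H) : Integrable (fun y => gout W1 W2 τ p y ⟪κ y, v⟫_ℝ • κ y) lam :=
  hJ.mono' ((meas_gout h0 hκ hW1 hW2 hτ p v).stronglyMeasurable.smul hκ).aestronglyMeasurable
    (Eventually.of_forall (fun y => bd2 h0 h1 hp v y))

include h0 h1 hp in
lemma bd3 (v : H) (y : X) : ph (AA W1 W2 τ y) (BB W1 τ y) p ⟪κ y, v⟫_ℝ ≤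
    ‖v‖ * (τ y ^ (p - 1) * (1 + ‖κ y‖ + ‖κ y‖ ^ 2)) := by
  have h2 : 0 ≤ τ y ^ (p - 1) := pow_nonneg (h0 y) _
  have h3 := ph_le (AA_nonneg (W1 := W1) (W2 := W2) h0 y) (BB_nonneg (W1 := W1) h0 y)
    (AA_le h0 y) (BB_le h0 y) hp ⟪κ y, v⟫_ℝ
  refine h3.trans ?_
  calc τ y ^ p * |⟪κ y, v⟫_ℝ| ≤ τ y ^ (p - 1) * (‖κ y‖ * ‖v‖) := by
        apply mul_le_mul (pow_le h0 h1 hp y) (abs_real_inner_le_norm _ _) (abs_nonneg _) h2
    _ = ‖v‖ * (τ y ^ (p - 1) * ‖κ y‖) := by ring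
    _ ≤ _ := by
      apply mul_le_mul_of_nonneg_left _ (norm_nonneg v)
      apply mul_le_mul_of_nonneg_left _ h2
      have := norm_nonneg (κ y)
      nlinarith

include h0 h1 hp hκ hW1 hW2 hτ hJ in
lemma int_ph (v : H) :
    Integrable (fun y => ph (AA W1 W2 τ y) (BB W1 τ y) p ⟪κ y, v⟫_ℝ) lam := by
  refine (hJ.const_mul ‖v‖).mono' (meas_ph hκ hW1 hW2 hτ p v).aestronglyMeasurable
    (Eventually.of_forall (fun y => ?_))
  rw [Real.norm_eq_abs, abs_of_nonneg (ph_nonneg (AA_nonneg h0 y) (BB_nonneg h0 y) hp _)]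
  exact bd3 h0 h1 hp v y

variable {ε : ℝ} (hε : (p : ℝ) * ∫ y, τ y ^ (p - 1) * (1 + ‖κ y‖ + ‖κ y‖ ^ 2) ∂lam ≤ ε)

include h0 in
lemma J_nonneg : 0 ≤ ∫ y, τ y ^ (p - 1) * (1 + ‖κ y‖ + ‖κ y‖ ^ 2) ∂lam :=
  integral_nonneg (fun y => mul_nonneg (pow_nonneg (h0 y) _) (by positivity))

include h0 hp hε in
lemma K_le : ∫ y, τ y ^ (p - 1) * (1 + ‖κ y‖ + ‖κ y‖ ^ 2) ∂lam ≤ ε := by
  have h2 : (1 : ℝ) ≤ p := by exact_mod_cast hp.pos
  have h3 := J_nonneg (lam := lam) (κ := κ) (p := p) h0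
  nlinarith

include h0 h1 hp hJ hε in
lemma norm_B_le (v : H) : ‖Bf lam κ W1 W2 τ p v‖ ≤ ε := by
  unfold Bf
  refine (norm_integral_le_integral_norm _).trans ?_
  refine le_trans ?_ (K_le h0 hp hε)
  exact integral_mono_of_nonneg (Eventually.of_forall (fun y => norm_nonneg _)) hJ
    (Eventually.of_forall (fun y => bd2 h0 h1 hp v y))

include h0 h1 hp hκ hW1 hW2 hτ hJ hε in
lemma B_lip (v w : H) :
    ‖Bf lam κ W1 W2 τ p v - Bf lam κ W1 W2 τ p w‖ ≤ ε * ‖v - w‖ := by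
  unfold Bf
  rw [← integral_sub (int_gsmul h0 hκ hW1 hW2 hτ h1 hp hJ v)
    (int_gsmul h0 hκ hW1 hW2 hτ h1 hp hJ w)]
  refine (norm_integral_le_integral_norm _).trans ?_
  have h3 : ∀ y, ‖gout W1 W2 τ p y ⟪κ y, v⟫_ℝ • κ y - gout W1 W2 τ p y ⟪κ y, w⟫_ℝ • κ y‖ ≤
      (p * ‖v - w‖) * (τ y ^ (p - 1) * (1 + ‖κ y‖ + ‖κ y‖ ^ 2)) := by
    intro y
    have h2 : 0 ≤ τ y ^ (p - 1) := pow_nonneg (h0 y) _
    rw [← sub_smul, norm_smul, Real.norm_eq_abs]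
    have h4 := gout_lip (W1 := W1) (W2 := W2) h0 p y ⟪κ y, v⟫_ℝ ⟪κ y, w⟫_ℝ
    rw [← inner_sub_right] at h4
    have h5 : |⟪κ y, v - w⟫_ℝ| ≤ ‖κ y‖ * ‖v - w‖ := abs_real_inner_le_norm _ _
    calc |gout W1 W2 τ p y ⟪κ y, v⟫_ℝ - gout W1 W2 τ p y ⟪κ y, w⟫_ℝ| * ‖κ y‖
        ≤ (p * τ y ^ (p - 1) * (‖κ y‖ * ‖v - w‖)) * ‖κ y‖ := by
          apply mul_le_mul_of_nonneg_right _ (norm_nonneg _)
          exact h4.trans (mul_le_mul_of_nonneg_left h5 (by positivity))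
      _ = (p * ‖v - w‖) * (τ y ^ (p - 1) * ‖κ y‖ ^ 2) := by ring
      _ ≤ _ := by
        apply mul_le_mul_of_nonneg_left _ (by positivity)
        apply mul_le_mul_of_nonneg_left _ h2
        have := norm_nonneg (κ y)
        linarith
  refine (integral_mono_of_nonneg (Eventually.of_forall (fun y => norm_nonneg _))
    (hJ.const_mul _) (Eventually.of_forall h3)).trans ?_
  rw [integral_const_mul]
  calc p * ‖v - w‖ * ∫ y, τ y ^ (p - 1) * (1 + ‖κ y‖ + ‖κ y‖ ^ 2) ∂lam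
      = (p * ∫ y, τ y ^ (p - 1) * (1 + ‖κ y‖ + ‖κ y‖ ^ 2) ∂lam) * ‖v - w‖ := by ring
    _ ≤ _ := mul_le_mul_of_nonneg_right hε (norm_nonneg _)

include h0 hp in
lemma F_nonneg (v : H) : 0 ≤ FF lam κ W1 W2 τ p v :=
  integral_nonneg (fun y => ph_nonneg (AA_nonneg h0 y) (BB_nonneg h0 y) hp _)

include h0 h1 hp hκ hW1 hW2 hτ hJ hε in
lemma F_le (v : H) : FF lam κ W1 W2 τ p v ≤ ε * ‖v‖ := by
  unfold FF
  refine (integral_mono (int_ph h0 hκ hW1 hW2 hτ h1 hp hJ v) (hJ.const_mul ‖v‖)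
    (fun y => bd3 h0 h1 hp v y)).trans ?_
  rw [integral_const_mul, mul_comm]
  exact mul_le_mul_of_nonneg_right (K_le h0 hp hε) (norm_nonneg _)

include h0 h1 hp hκ hW1 hW2 hτ hJ hε in
lemma F_ineq [CompleteSpace H] (v w : H) : FF lam κ W1 W2 τ p v ≤
    FF lam κ W1 W2 τ p w + ⟪Bf lam κ W1 W2 τ p w, v - w⟫_ℝ + ε * ‖v - w‖ ^ 2 := by
  have hg := int_gsmul h0 hκ hW1 hW2 hτ h1 hp hJ w
  have hi : ⟪Bf lam κ W1 W2 τ p w, v - w⟫_ℝ =
      ∫ y, gout W1 W2 τ p y ⟪κ y, w⟫_ℝ * (⟪κ y, v⟫_ℝ - ⟪κ y, w⟫_ℝ) ∂lam := by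
    unfold Bf
    rw [real_inner_comm, ← integral_inner hg]
    apply integral_congr_ae
    refine Eventually.of_forall (fun y => ?_)
    simp only
    rw [inner_smul_right, real_inner_comm (κ y) (v - w), inner_sub_right]
  have hi2 : Integrable (fun y => gout W1 W2 τ p y ⟪κ y, w⟫_ℝ * (⟪κ y, v⟫_ℝ - ⟪κ y, w⟫_ℝ)) lam := by
    have h2 := hg.const_inner (𝕜 := ℝ) (v - w)
    refine h2.congr (Eventually.of_forall (fun y => ?_))
    simp only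
    rw [inner_smul_right, real_inner_comm (κ y) (v - w), inner_sub_right]
  rw [hi]
  have hJ2 := hJ.const_mul (p * ‖v - w‖ ^ 2)
  have h3 : ∫ y, (p * ‖v - w‖ ^ 2) * (τ y ^ (p - 1) * (1 + ‖κ y‖ + ‖κ y‖ ^ 2)) ∂lam ≤
      ε * ‖v - w‖ ^ 2 := by
    rw [integral_const_mul]
    calc p * ‖v - w‖ ^ 2 * ∫ y, τ y ^ (p - 1) * (1 + ‖κ y‖ + ‖κ y‖ ^ 2) ∂lam
        = (p * ∫ y, τ y ^ (p - 1) * (1 + ‖κ y‖ + ‖κ y‖ ^ 2) ∂lam) * ‖v - w‖ ^ 2 := by ring
      _ ≤ _ := mul_le_mul_of_nonneg_right hε (by positivity)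
  refine le_trans ?_ (add_le_add le_rfl h3)
  unfold FF
  have hw := int_ph h0 hκ hW1 hW2 hτ h1 hp hJ w
  have hadd : Integrable (fun y => ph (AA W1 W2 τ y) (BB W1 τ y) p ⟪κ y, w⟫_ℝ +
      gout W1 W2 τ p y ⟪κ y, w⟫_ℝ * (⟪κ y, v⟫_ℝ - ⟪κ y, w⟫_ℝ)) lam := hw.add hi2
  rw [← integral_add hw hi2, ← integral_add hadd hJ2]
  refine integral_mono (int_ph h0 hκ hW1 hW2 hτ h1 hp hJ v) (hadd.add hJ2) (fun y => ?_)
  have h4 := ph_ineq (AA_nonneg (W1 := W1) (W2 := W2) h0 y) (BB_nonneg (W1 := W1) h0 y)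
    (AA_le h0 y) (BB_le h0 y) hp ⟪κ y, v⟫_ℝ ⟪κ y, w⟫_ℝ
  rw [← gout_eq h0] at h4
  refine h4.trans ?_
  show _ ≤ ph (AA W1 W2 τ y) (BB W1 τ y) p ⟪κ y, w⟫_ℝ +
    gout W1 W2 τ p y ⟪κ y, w⟫_ℝ * (⟪κ y, v⟫_ℝ - ⟪κ y, w⟫_ℝ) +
    (p * ‖v - w‖ ^ 2) * (τ y ^ (p - 1) * (1 + ‖κ y‖ + ‖κ y‖ ^ 2))
  have h2 : 0 ≤ τ y ^ (p - 1) := pow_nonneg (h0 y) _
  have h5 : (⟪κ y, v⟫_ℝ - ⟪κ y, w⟫_ℝ) ^ 2 ≤ ‖κ y‖ ^ 2 * ‖v - w‖ ^ 2 := by
    rw [← inner_sub_right, ← mul_pow, ← sq_abs]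
    exact pow_le_pow_left₀ (abs_nonneg _) (abs_real_inner_le_norm _ _) 2
  have h6 : p * τ y ^ (p - 1) * (⟪κ y, v⟫_ℝ - ⟪κ y, w⟫_ℝ) ^ 2 ≤
      (p * ‖v - w‖ ^ 2) * (τ y ^ (p - 1) * (1 + ‖κ y‖ + ‖κ y‖ ^ 2)) := by
    calc p * τ y ^ (p - 1) * (⟪κ y, v⟫_ℝ - ⟪κ y, w⟫_ℝ) ^ 2
        ≤ p * τ y ^ (p - 1) * (‖κ y‖ ^ 2 * ‖v - w‖ ^ 2) :=
          mul_le_mul_of_nonneg_left h5 (by positivity)
      _ = (p * ‖v - w‖ ^ 2) * (τ y ^ (p - 1) * ‖κ y‖ ^ 2) := by ring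
      _ ≤ _ := by
        apply mul_le_mul_of_nonneg_left _ (by positivity)
        apply mul_le_mul_of_nonneg_left _ h2
        have := norm_nonneg (κ y)
        linarith
  linarith

end measure

/-- the abstract part: from `B` and `F` to `V` and `Es` -/
theorem abs_core {H : Type} [NormedAddCommGroup H] [InnerProductSpace ℝ H] [CompleteSpace H]
    (B : H → H) (F : H → ℝ) (ε η : ℝ) (hε0 : 0 ≤ ε) (hε : ε ≤ 1 / 4) (hεη : ε ≤ η)
    (hB : ∀ v, ‖B v‖ ≤ ε) (hL : ∀ v w, ‖B v - B w‖ ≤ ε * ‖v - w‖) (hF0 : ∀ v, 0 ≤ F v)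
    (hF1 : ∀ v, F v ≤ ε * ‖v‖)
    (hF2 : ∀ v w, F v ≤ F w + ⟪B w, v - w⟫_ℝ + ε * ‖v - w‖ ^ 2) :
    ∃ (V : H → H) (Es : H → ℝ), (∀ h, V h - B (V h) = h) ∧ (∀ h, ‖V h - h‖ ≤ η) ∧
    Continuous V ∧ (∀ h h', ‖h - h'‖ ^ 2 / 4 ≤ ⟪V h - V h', h - h'⟫_ℝ) ∧
    (∀ h h', Es h + ⟪V h, h' - h⟫_ℝ ≤ Es h') ∧
    (∀ h, ‖h‖ ^ 2 / 2 ≤ Es h ∧ Es h ≤ ‖h‖ ^ 2 / 2 + η * (‖h‖ + 1)) := by
  have hcontr : ∀ h : H, ContractingWith (1 / 4 : NNReal) (fun v => h + B v) := by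
    intro h
    refine ⟨by
      have : (1 / 4 : NNReal) < 1 := by
        rw [div_lt_one (by norm_num)]
        norm_num
      exact this, LipschitzWith.of_dist_le_mul (fun v w => ?_)⟩
    rw [dist_eq_norm, dist_eq_norm, add_sub_add_left_eq_sub]
    refine (hL v w).trans ?_
    apply mul_le_mul_of_nonneg_right _ (norm_nonneg _)
    push_cast
    exact hε
  have hex : ∀ h : H, ∃ v : H, v - B v = h := by
    intro h
    have h1 := (hcontr h).fixedPoint_isFixedPt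
    refine ⟨ContractingWith.fixedPoint _ (hcontr h), ?_⟩
    have h2 : h + B (ContractingWith.fixedPoint _ (hcontr h)) =
      ContractingWith.fixedPoint _ (hcontr h) := h1
    rw [sub_eq_iff_eq_add]
    exact h2.symm
  choose V hV using hex
  have hVB : ∀ h, V h - h = B (V h) := by
    intro h
    have := hV h
    rw [sub_eq_iff_eq_add] at this
    rw [sub_eq_iff_eq_add, add_comm]
    exact this
  have hVh : ∀ h, ‖V h - h‖ ≤ ε := fun h => by rw [hVB]; exact hB _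
  have hdiff : ∀ h h', V h - V h' = (h - h') + (B (V h) - B (V h')) := by
    intro h h'
    rw [← hVB, ← hVB]; abel
  have hVlip : ∀ h h', ‖V h - V h'‖ ≤ (4 / 3) * ‖h - h'‖ := by
    intro h h'
    have h1 : ‖V h - V h'‖ ≤ ‖h - h'‖ + ε * ‖V h - V h'‖ := by
      calc ‖V h - V h'‖ = ‖(h - h') + (B (V h) - B (V h'))‖ := by rw [← hdiff]
        _ ≤ ‖h - h'‖ + ‖B (V h) - B (V h')‖ := norm_add_le _ _
        _ ≤ _ := add_le_add le_rfl (hL _ _)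
    have h2 : ε * ‖V h - V h'‖ ≤ (1 / 4) * ‖V h - V h'‖ :=
      mul_le_mul_of_nonneg_right hε (norm_nonneg _)
    linarith
  have hbd : ∀ h v, ⟪h, v⟫_ℝ - ‖v‖ ^ 2 / 2 + F v ≤
      ⟪h, V h⟫_ℝ - ‖V h‖ ^ 2 / 2 + F (V h) := by
    intro h v
    have h1 := hF2 v (V h)
    have h2 : h = V h - B (V h) := (hV h).symm
    have h3 : ⟪h, v⟫_ℝ = ⟪V h, v⟫_ℝ - ⟪B (V h), v⟫_ℝ := by
      conv_lhs => rw [h2]
      rw [inner_sub_left]
    have h4 : ⟪h, V h⟫_ℝ = ⟪V h, V h⟫_ℝ - ⟪B (V h), V h⟫_ℝ := by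
      rw [← inner_sub_left, hV h]
    have h5 : ⟪B (V h), v - V h⟫_ℝ = ⟪B (V h), v⟫_ℝ - ⟪B (V h), V h⟫_ℝ := inner_sub_right _ _ _
    have h6 : ‖v - V h‖ ^ 2 = ‖v‖ ^ 2 - 2 * ⟪v, V h⟫_ℝ + ‖V h‖ ^ 2 := norm_sub_sq_real v (V h)
    have h7 : ⟪V h, V h⟫_ℝ = ‖V h‖ ^ 2 := real_inner_self_eq_norm_sq _
    have h8 : ⟪V h, v⟫_ℝ = ⟪v, V h⟫_ℝ := real_inner_comm _ _
    have h9 : ε * ‖v - V h‖ ^ 2 ≤ (1 / 4) * ‖v - V h‖ ^ 2 :=
      mul_le_mul_of_nonneg_right hε (by positivity)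
    have h10 : 0 ≤ ‖v - V h‖ ^ 2 := by positivity
    rw [h3, h4, h7, h8]
    rw [h5] at h1
    linarith
  refine ⟨V, fun h => ⟪h, V h⟫_ℝ - ‖V h‖ ^ 2 / 2 + F (V h), hV, fun h => (hVh h).trans hεη,
    ?_, ?_, ?_, ?_⟩
  · have : LipschitzWith (4 / 3 : NNReal) V := LipschitzWith.of_dist_le_mul (fun v w => by
      rw [dist_eq_norm, dist_eq_norm]
      push_cast
      exact hVlip v w)
    exact this.continuous
  · intro h h'
    have h1 : ⟪V h - V h', h - h'⟫_ℝ = ‖h - h'‖ ^ 2 + ⟪B (V h) - B (V h'), h - h'⟫_ℝ := by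
      rw [hdiff, inner_add_left, real_inner_self_eq_norm_sq]
    have h2 : |⟪B (V h) - B (V h'), h - h'⟫_ℝ| ≤ (1 / 3) * ‖h - h'‖ ^ 2 := by
      refine (abs_real_inner_le_norm _ _).trans ?_
      have h3 : ‖B (V h) - B (V h')‖ ≤ (1 / 3) * ‖h - h'‖ := by
        calc ‖B (V h) - B (V h')‖ ≤ ε * ‖V h - V h'‖ := hL _ _
          _ ≤ (1 / 4) * ((4 / 3) * ‖h - h'‖) :=
            mul_le_mul hε (hVlip h h') (norm_nonneg _) (by norm_num)
          _ = _ := by ring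
      calc ‖B (V h) - B (V h')‖ * ‖h - h'‖ ≤ (1 / 3) * ‖h - h'‖ * ‖h - h'‖ :=
            mul_le_mul_of_nonneg_right h3 (norm_nonneg _)
        _ = _ := by ring
    have h3 := neg_abs_le ⟪B (V h) - B (V h'), h - h'⟫_ℝ
    have h4 : 0 ≤ ‖h - h'‖ ^ 2 := by positivity
    rw [h1]
    linarith
  · intro h h'
    simp only
    have h1 := hbd h' (V h)
    have h2 : ⟪V h, h' - h⟫_ℝ = ⟪h', V h⟫_ℝ - ⟪h, V h⟫_ℝ := by
      rw [inner_sub_right, real_inner_comm, real_inner_comm h (V h)]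
    rw [h2]
    linarith
  · intro h
    simp only
    constructor
    · have h1 := hbd h h
      have h2 := hF0 h
      rw [real_inner_self_eq_norm_sq] at h1
      linarith
    · have h1 := hF1 (V h)
      have h2 : ‖V h‖ ≤ ‖h‖ + ε := by
        calc ‖V h‖ = ‖h + (V h - h)‖ := by rw [add_sub_cancel]
          _ ≤ ‖h‖ + ‖V h - h‖ := norm_add_le _ _
          _ ≤ _ := add_le_add le_rfl (hVh h)
      have h3 : ‖h - V h‖ ^ 2 = ‖h‖ ^ 2 - 2 * ⟪h, V h⟫_ℝ + ‖V h‖ ^ 2 := norm_sub_sq_real _ _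
      have h4 : 0 ≤ ‖h - V h‖ ^ 2 := by positivity
      have h5 : ε * ‖V h‖ ≤ η * (‖h‖ + 1) := by
        apply mul_le_mul hεη _ (norm_nonneg _) (hε0.trans hεη)
        linarith
      linarith

theorem st_A2 : ST_A2 := by
  intro H _ _ _ X _ lam κ W1 W2 τ hκ hW1 hW2 hτ h0 ht hq η hη
  obtain ⟨t₀, ht₀, ht⟩ := ht
  obtain ⟨q, hq⟩ := hq
  set t : ℝ := max t₀ (1 / 2) with htdef
  have ht1 : t < 1 := max_lt ht₀ (by norm_num)
  have htpos : 0 < t := lt_of_lt_of_le (by norm_num) (le_max_right _ _)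
  have hτt : ∀ x, τ x ≤ t := fun x => (ht x).trans (le_max_left _ _)
  set I : ℝ := ∫ y, τ y ^ q * (1 + ‖κ y‖ + ‖κ y‖ ^ 2) ∂lam with hI
  have hI0 : 0 ≤ I := integral_nonneg (fun y => mul_nonneg (pow_nonneg (h0 y) _) (by positivity))
  have hlim : Tendsto (fun p : ℕ => (p : ℝ) * t ^ p * (I / t ^ (q + 1))) atTop (𝓝 0) := by
    have := (tendsto_self_mul_const_pow_of_lt_one htpos.le ht1).mul_const (I / t ^ (q + 1))
    rwa [zero_mul] at this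
  have hev : ∀ᶠ p : ℕ in atTop, (p : ℝ) * t ^ p * (I / t ^ (q + 1)) < min η (1 / 4) :=
    hlim.eventually (gt_mem_nhds (lt_min hη (by norm_num)))
  filter_upwards [hev, eventually_ge_atTop (q + 1)] with p hpε hpq hp
  have hle : ∀ y, τ y ^ (p - 1) * (1 + ‖κ y‖ + ‖κ y‖ ^ 2) ≤
      t ^ (p - 1 - q) * (τ y ^ q * (1 + ‖κ y‖ + ‖κ y‖ ^ 2)) := by
    intro y
    have h2 : τ y ^ (p - 1) = τ y ^ (p - 1 - q) * τ y ^ q := by
      rw [← pow_add]; congr 1; omega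
    rw [h2, mul_assoc]
    apply mul_le_mul_of_nonneg_right (pow_le_pow_left₀ (h0 y) (hτt y) _)
    exact mul_nonneg (pow_nonneg (h0 y) _) (by positivity)
  have hmeas : Measurable (fun y => τ y ^ (p - 1) * (1 + ‖κ y‖ + ‖κ y‖ ^ 2)) := by
    have hn : Measurable (fun y => ‖κ y‖) := hκ.norm.measurable
    exact (hτ.pow_const _).mul ((measurable_const.add hn).add (hn.pow_const 2))
  have hJ : Integrable (fun y => τ y ^ (p - 1) * (1 + ‖κ y‖ + ‖κ y‖ ^ 2)) lam := by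
    refine (hq.const_mul (t ^ (p - 1 - q))).mono' hmeas.aestronglyMeasurable
      (Eventually.of_forall (fun y => ?_))
    rw [Real.norm_eq_abs, abs_of_nonneg (mul_nonneg (pow_nonneg (h0 y) _) (by positivity))]
    exact hle y
  set ε : ℝ := min η (1 / 4) with hεd
  have hε : (p : ℝ) * ∫ y, τ y ^ (p - 1) * (1 + ‖κ y‖ + ‖κ y‖ ^ 2) ∂lam ≤ ε := by
    refine le_trans ?_ hpε.le
    have h2 : ∫ y, τ y ^ (p - 1) * (1 + ‖κ y‖ + ‖κ y‖ ^ 2) ∂lam ≤ t ^ (p - 1 - q) * I := by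
      rw [hI, ← integral_const_mul]
      exact integral_mono hJ (hq.const_mul _) hle
    have h3 : t ^ p = t ^ (p - 1 - q) * t ^ (q + 1) := by
      rw [← pow_add]; congr 1; omega
    calc (p : ℝ) * ∫ y, τ y ^ (p - 1) * (1 + ‖κ y‖ + ‖κ y‖ ^ 2) ∂lam
        ≤ p * (t ^ (p - 1 - q) * I) := mul_le_mul_of_nonneg_left h2 (by positivity)
      _ = _ := by
        rw [h3]
        field_simp
  have h1 : ∀ x, τ x ≤ 1 := fun x => (hτt x).trans ht1.le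
  have hε0 : 0 ≤ ε := le_min hη.le (by norm_num)
  have hεη : ε ≤ η := min_le_left _ _
  have hε4 : ε ≤ 1 / 4 := min_le_right _ _
  refine ⟨fun v => int_gsmul h0 hκ hW1 hW2 hτ h1 hp hJ v, fun v =>
    ⟨int_gout h0 hκ hW1 hW2 hτ h1 hp hJ v, ?_⟩, ?_⟩
  · refine le_trans ?_ hεη
    refine le_trans ?_ (K_le h0 hp hε)
    exact integral_mono (int_gout h0 hκ hW1 hW2 hτ h1 hp hJ v).abs hJ
      (fun y => bd1 h0 h1 hp v y)
  · exact abs_core (Bf lam κ W1 W2 τ p) (FF lam κ W1 W2 τ p) ε η hε0 hε4 hεη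
      (norm_B_le h0 h1 hp hJ hε) (B_lip h0 hκ hW1 hW2 hτ h1 hp hJ hε) (F_nonneg h0 hp)
      (F_le h0 hκ hW1 hW2 hτ h1 hp hJ hε) (F_ineq h0 hκ hW1 hW2 hτ h1 hp hJ hε)

end LEP.A2
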